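import Pool.Agent.N254.SQ.Fin3

/-!
# Lang's conjecture on hyperbolicity is a question on smooth hypersurfaces

Lang's conjecture of 1986: a projective manifold is hyperbolic if and only if all its closed
subvarieties of positive dimension are of general type.

Let `X = V(S)` be any projective variety in `P^n`, `n ≥ 1` (any dimension and any singularities), given
by forms of degree at most `d`, `d ≥ 3`, and `v : P^n → P^N` the Veronese embedding of degree `d`. For
all `D ≥ D₁(N)` there are quadratic forms `Q_t`, `t < N (2 N + 1)`, such that the hypersurface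

`Y : ∑ t, Q_t(y) (y_0 + t y_1 + ⋯ + t^N y_N)^D = 0`

is smooth, contains `v(X)`, and `Y` is hyperbolic if and only if `X` is; all closed subvarieties of `Y`
of positive dimension are of general type if and only if this holds for `X`.

So the equivalence in Lang's conjecture, for all projective manifolds, or even for all projective
varieties with arbitrary singularities, follows from the case of the smooth hypersurfaces of this
form, with `D` in any given infinite set.

Proof. See `Pool/Agent/N254/SQ`. `X` is mapped to the zeros of quadratic forms `q_i` whose Jacobian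
matrix has rank `≥ N - n > n` at all points, and `Q_t = ∑ c_{t,i} q_i` with general coefficients. Over any
extension field a point of `Y` with `2 N + 1` disjoint vanishing subsums is a zero of all `q_i`. For an
entire curve, and for the generic point of a subvariety which is not of general type, all minimal
vanishing subsums have at most `N` terms (Wronskians of circuits), so there are `2 N + 1` of them.
-/

set_option autoImplicit false

namespace Pool.Agent.Results.MP_c6ff8d_ag.SmoothHypersurfacesSuffice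

open MvPolynomial
open Pool.Agent.W602.GT (SubVar GeneralType)

/-- all entire curves in `V(S)` are constant: `V(S)` is hyperbolic -/
def Hyperbolic (n : ℕ) (S : Set (MvPolynomial (Fin (n + 1)) ℂ)) : Prop :=
  ∀ f : ℂ → (Fin (n + 1) → ℂ), Differentiable ℂ f → (∀ z, f z ≠ 0) →
    (∀ z, ∀ p ∈ S, eval (f z) p = 0) → ∀ z w, ∃ c : ℂ, f w = c • f z

/-- all closed subvarieties of `V(S)` of positive dimension are of general type -/
def AllGeneral (n : ℕ) (S : Set (MvPolynomial (Fin (n + 1)) ℂ)) : Prop :=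
  ∀ (L : Type) [Field L] [Algebra ℂ L] (w : ℕ) (y : Fin (n + 1) → L), 1 ≤ w →
    SubVar (fun p : S => (p : MvPolynomial (Fin (n + 1)) ℂ)) L w y → GeneralType ℂ L w

/-- the partial derivatives have no common zeros in `P^N` -/
def Smooth {N : ℕ} (A : MvPolynomial (Fin (N + 1)) ℂ) : Prop :=
  ∀ y : Fin (N + 1) → ℂ, y ≠ 0 → ∃ j, eval y (pderiv j A) ≠ 0

/-- the form `∑ t, Q_t(y) (y_0 + t y_1 + ⋯ + t ^ N y_N) ^ D` -/
noncomputable def powerForm {N M : ℕ} (D : ℕ) (Q : Fin M → MvPolynomial (Fin (N + 1)) ℂ) :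
    MvPolynomial (Fin (N + 1)) ℂ :=
  ∑ t : Fin M, Q t * (∑ j : Fin (N + 1), C (((t : ℕ) : ℂ) ^ (j : ℕ)) * X j) ^ D

/-- `m` enumerates the exponent vectors of the monomials of degree `d` in `n + 1` variables -/
structure Monomials (n N d : ℕ) (m : Fin (N + 1) → Fin (n + 1) → ℕ) : Prop where
  deg : ∀ a, ∑ j, m a j = d
  inj : Function.Injective m
  surj : ∀ α : Fin (n + 1) → ℕ, ∑ j, α j = d → ∃ a, m a = α

/-- the Veronese map -/
def veronese {n N : ℕ} (m : Fin (N + 1) → Fin (n + 1) → ℕ) (x : Fin (n + 1) → ℂ) :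
    Fin (N + 1) → ℂ := fun a => ∏ j, x j ^ m a j

section proof

open Pool.Agent.N254.SQ (Mon ver Good main5 leaves4 t_ext t_lift special_iff curves_iff reduce
  pull aeval_pull powerSum sub_ver ver_prop ver_diff ver_ne_zero OnSpecial OnCurves IsForm)

/-- the dimension of a closed subvariety of the projective space -/
theorem dim_le {n : ℕ} {S : Set (MvPolynomial (Fin (n + 1)) ℂ)} {L : Type} [Field L] [Algebra ℂ L]
    {w : ℕ} {y : Fin (n + 1) → L}
    (h : SubVar (fun p : S => (p : MvPolynomial (Fin (n + 1)) ℂ)) L w y) : w ≤ n := by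
  obtain ⟨a, ha⟩ : ∃ a, y a ≠ 0 := by
    by_contra hcon
    push Not at hcon
    exact h.ne (funext hcon)
  set x' : Fin (n + 1) → L := fun j => y j / y a with hx'
  have h2 : IntermediateField.adjoin ℂ (Set.range x') = ⊤ := by
    rw [eq_top_iff, ← h.gen]
    apply IntermediateField.adjoin_le_iff.2
    rintro _ ⟨i, j, hj, rfl⟩
    have h3 : ∀ k, x' k ∈ IntermediateField.adjoin ℂ (Set.range x') := fun k =>
      IntermediateField.subset_adjoin ℂ _ ⟨k, rfl⟩
    have h4 : y i / y j = x' i / x' j := by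
      rw [hx']
      simp only
      rw [div_div_div_cancel_right₀ ha]
    rw [h4]
    exact div_mem (h3 i) (h3 j)
  have h3 := Pool.Agent.N254.SQ.t_td ℂ L n n x' a x' (by rw [hx']; exact div_self ha)
    (fun b => ⟨X b, by rw [aeval_X]⟩)
  rw [← Pool.Agent.N254.SQ.trdeg_field, h2] at h3
  have h4 := (IntermediateField.topEquiv (F := ℂ) (E := L)).trdeg_eq
  rw [h4, h.dim] at h3
  exact_mod_cast h3

theorem hyperbolic_iff {n : ℕ} {S : Set (MvPolynomial (Fin (n + 1)) ℂ)} :
    Hyperbolic n S ↔ OnCurves S 1 := by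
  constructor
  · intro h f hf hf0 hfS
    exact Or.inl (h f hf hf0 hfS)
  · intro h f hf hf0 hfS
    rcases h f hf hf0 hfS with h1 | h1
    · exact h1
    · exact absurd (h1 0) (by rw [map_one]; exact one_ne_zero)

theorem general_iff {n : ℕ} {S : Set (MvPolynomial (Fin (n + 1)) ℂ)} :
    AllGeneral n S ↔ OnSpecial S 1 := by
  constructor
  · intro h L _ _ w y hw hy
    exact Or.inl (h L w y hw hy)
  · intro h L _ _ w y hw hy
    rcases h L w y hw hy with h1 | h1
    · exact h1
    · rw [map_one] at h1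
      exact absurd h1 one_ne_zero

theorem full : ∃ D₁ : ℕ → ℕ,
    ∀ n d : ℕ, 1 ≤ n → 3 ≤ d → ∃ (N : ℕ) (m : Fin (N + 1) → Fin (n + 1) → ℕ),
      Monomials n N d m ∧ ∀ D, D₁ N ≤ D →
        ∀ S : Set (MvPolynomial (Fin (n + 1)) ℂ), (∀ p ∈ S, ∃ e ≤ d, p.IsHomogeneous e) →
        ∃ Q : Fin (N * (2 * N + 1)) → MvPolynomial (Fin (N + 1)) ℂ,
          (∀ t, (Q t).IsHomogeneous 2) ∧ Smooth (powerForm D Q) ∧
          (∀ x : Fin (n + 1) → ℂ, (∀ p ∈ S, eval x p = 0) →
            eval (veronese m x) (powerForm D Q) = 0) ∧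
          (Hyperbolic N {powerForm D Q} ↔ Hyperbolic n S) ∧
          (AllGeneral N {powerForm D Q} ↔ AllGeneral n S) := by
  obtain ⟨D₁, H⟩ := main5 leaves4 t_ext
  refine ⟨D₁, fun n d hn hd => ?_⟩
  obtain ⟨N, m, hm, hN, H2⟩ := H n d hn hd
  refine ⟨N, m, ⟨hm.deg, hm.inj, hm.surj⟩, fun D hD S hS => ?_⟩
  obtain ⟨Q, hQ, hsm, -, hg⟩ := H2 D hD ℂ (RingHom.id ℂ) S hS
  have hid : (map (RingHom.id ℂ) '' S : Set (MvPolynomial (Fin (n + 1)) ℂ)) = S := by
    ext p
    simp [map_id]
  rw [hid, map_id] at hg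
  have hone : IsForm (1 : MvPolynomial (Fin (N + 1)) ℂ) := ⟨0, isHomogeneous_one _ _⟩
  have hpull : pull m (1 : MvPolynomial (Fin (N + 1)) ℂ) = 1 := map_one _
  refine ⟨Q, hQ, ?_, ?_, ?_, ?_⟩
  · intro y hy
    obtain ⟨j, hj⟩ := hsm ℂ (RingHom.id ℂ) y hy
    rw [map_id] at hj
    exact ⟨j, hj⟩
  · intro x hx
    exact hg.sub ℂ x hx
  · rw [hyperbolic_iff, hyperbolic_iff]
    have h1 := curves_iff t_lift hg (G := (1 : MvPolynomial (Fin (N + 1)) ℂ))
    rw [hpull] at h1
    exact h1
  · rw [general_iff, general_iff]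
    have h1 := special_iff hg hone
    rw [hpull] at h1
    exact h1

end proof

theorem result : ∃ D₁ : ℕ → ℕ,
    (∀ n d : ℕ, 1 ≤ n → 3 ≤ d → ∃ (N : ℕ) (m : Fin (N + 1) → Fin (n + 1) → ℕ),
      Monomials n N d m ∧ ∀ D, D₁ N ≤ D →
        ∀ S : Set (MvPolynomial (Fin (n + 1)) ℂ), (∀ p ∈ S, ∃ e ≤ d, p.IsHomogeneous e) →
        ∃ Q : Fin (N * (2 * N + 1)) → MvPolynomial (Fin (N + 1)) ℂ,
          (∀ t, (Q t).IsHomogeneous 2) ∧ Smooth (powerForm D Q) ∧
          (∀ x : Fin (n + 1) → ℂ, (∀ p ∈ S, eval x p = 0) →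
            eval (veronese m x) (powerForm D Q) = 0) ∧
          (Hyperbolic N {powerForm D Q} ↔ Hyperbolic n S) ∧
          (AllGeneral N {powerForm D Q} ↔ AllGeneral n S)) ∧
    ∀ E : Set ℕ, E.Infinite →
      ((∀ (n : ℕ) (S : Set (MvPolynomial (Fin (n + 1)) ℂ)), (∀ p ∈ S, ∃ e, p.IsHomogeneous e) →
          (Hyperbolic n S ↔ AllGeneral n S)) ↔
        ∀ (N D : ℕ) (Q : Fin (N * (2 * N + 1)) → MvPolynomial (Fin (N + 1)) ℂ), D ∈ E →
          D₁ N ≤ D → (∀ t, (Q t).IsHomogeneous 2) → Smooth (powerForm D Q) →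
          (Hyperbolic N {powerForm D Q} ↔ AllGeneral N {powerForm D Q})) := by
  obtain ⟨D₁, H⟩ := full
  refine ⟨D₁, H, fun E hE => ⟨?_, ?_⟩⟩
  · intro h N D Q _ _ hQ _
    refine h N _ fun p hp => ?_
    rw [Set.mem_singleton_iff] at hp
    rw [hp]
    exact ⟨_, Pool.Agent.N254.SQ.power_form hQ⟩
  · intro h n S hS
    rcases Nat.eq_zero_or_pos n with hn | hn
    · subst hn
      constructor
      · intro _ L _ _ w y hw hy
        have := dim_le hy
        omega
      · intro _ f hf hf0 hfS z w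
        have h1 : f z 0 ≠ 0 := by
          intro h2
          apply hf0 z
          funext j
          rw [show j = 0 from Fin.ext (by omega)]
          exact h2
        refine ⟨f w 0 / f z 0, funext fun j => ?_⟩
        rw [show j = 0 from Fin.ext (by omega), Pi.smul_apply, smul_eq_mul, div_mul_cancel₀ _ h1]
    · obtain ⟨T, hT, hTS⟩ := Pool.Agent.N254.SQ.reduce S
      have hTS' : ∀ (L : Type) [Field L] [Algebra ℂ L] (x : Fin (n + 1) → L),
          (∀ p ∈ T, aeval x p = 0) → ∀ p ∈ S, aeval x p = 0 := by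
        intro L _ _ x hx p hp
        have h1 := hTS L (algebraMap ℂ L) x (fun p hp => by
          rw [eval_map]
          exact hx p hp) p hp
        rw [eval_map] at h1
        exact h1
      have hT2 : ∀ p ∈ T, ∃ e, p.IsHomogeneous e := fun p hp => hS p (hT hp)
      obtain ⟨d, hd3, hd⟩ : ∃ d, 3 ≤ d ∧ ∀ p ∈ T, ∃ e ≤ d, p.IsHomogeneous e := by
        choose! e he using hT2
        refine ⟨max 3 (T.sup e), le_max_left _ _, fun p hp => ⟨e p, ?_, he p hp⟩⟩
        exact le_trans (Finset.le_sup (f := e) hp) (le_max_right _ _)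
      obtain ⟨N, m, hm, H2⟩ := H n d hn hd3
      obtain ⟨D, hD, hD2⟩ := hE.exists_gt (D₁ N)
      obtain ⟨Q, hQ, hsm, -, hhyp, hgen⟩ := H2 D hD2.le (T : Set (MvPolynomial (Fin (n + 1)) ℂ))
        (fun p hp => hd p hp)
      have h1 : Hyperbolic n T ↔ Hyperbolic n S :=
        ⟨fun hB f hf hf0 hfS => hB f hf hf0 fun z p hp => hfS z p (hT hp),
          fun hB f hf hf0 hfT => hB f hf hf0 fun z p hp => hTS' ℂ (f z) (fun p hp => hfT z p hp) p hp⟩
      have h2 : AllGeneral n T ↔ AllGeneral n S :=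
        ⟨fun hB L _ _ w y hw hy => hB L w y hw ⟨hy.ne, fun p => hy.mem ⟨p, hT p.2⟩, hy.gen, hy.dim⟩,
          fun hB L _ _ w y hw hy => hB L w y hw
            ⟨hy.ne, fun p => hTS' L y (fun p hp => hy.mem ⟨p, hp⟩) _ p.2, hy.gen, hy.dim⟩⟩
      rw [← h1, ← h2, ← hhyp, ← hgen]
      exact h N D Q hD hD2.le hQ hsm

end Pool.Agent.Results.MP_c6ff8d_ag.SmoothHypersurfacesSuffice
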