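import Pool.Agent.N155.Fin

/-!
Lang's conjecture for smooth projective surfaces with a nonconstant rational map to an elliptic
curve: if all subvarieties of the surface are of general type, then the surface is hyperbolic.
-/

set_option autoImplicit false

open FF Pool.Agent.W602.GT Pool.Agent.N155

/-- Let `X = {F = 0}` be a smooth projective surface with function field `K`, and let
`(a, b) : X ⇢ E = {b² = 4 a³ - g₂ a - g₃}` be a nonconstant rational map to an elliptic curve. If
every subvariety of `X`, including `X`, is of general type, then `X` is Brody hyperbolic. -/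
theorem Pool.Agent.Results.MP_c6ff8d_ag.SurfacesOverEllipticCurves.result {n : ℕ} {ι : Type}
    (F : ι → MvPolynomial (Fin (n + 1)) ℂ) {K : Type} [Field K] [Algebra ℂ K]
    (y : Fin (n + 1) → K) (hX : SmoothSurface F y) (a b : K) (g2 g3 : ℂ)
    (hab : b ^ 2 = 4 * a ^ 3 - algebraMap ℂ K g2 * a - algebraMap ℂ K g3)
    (hE : g2 ^ 3 ≠ 27 * g3 ^ 2) (ha : Transcendental ℂ a) (hgen : AllSubGeneral F) :
    BrodyHyperbolic F :=
  brody_of_elliptic hX hab hE ha hgen
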