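import Pool.Agent.N95.RF.Cor2

/-!
MP_c6ff8d_ag, Q1: all closed subvarieties of positive dimension of the projective varieties which are
finite over a symmetric power of a generic complete intersection are of general type.

Let `K` be an algebraically closed field of characteristic `0` (for instance `ℂ`), and let `k` be a
field contained in `K`, with algebraic closure `k'` in `K`. A *generic complete intersection* `X`
(`GenericCI k K`, in `Pool/Agent/N111/GI/Maps.lean`) is the intersection of a closed subset `V` of a
projective space, defined over `k'`, of dimension at most `m`, and of hypersurfaces `F a = 0` of
degrees `d a`, where the ratios of the coefficients of `F a` to one of them are, for all `a` together,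
algebraically independent over `k`. Let `S` be the sum of the numbers `d a + 1`.

Let `Z` be a closed subset of a projective space over `K` (not necessarily irreducible or smooth),
given by the set `Φ` of forms. We consider the closed correspondences `Γ` in `Z × X` (`SymCor`, in
`Pool/Agent/N95/RF/Cor.lean`), given by bihomogeneous polynomials, such that, for all points `z` of `Z`
over all algebraically closed extensions `Ω` of `K`, the set `Γ_z` of the points `x` of `X` with
`(z, x)` in `Γ` has at least one and at most `r` elements, and `z` is defined over each algebraically
closed field between `K` and `Ω` over which all points in `Γ_z` are defined. For instance, if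
`g : Z → Sym^r X` is a finite morphism, then the set of the pairs `(z, x)` with `x` in the support of
the cycle `g z` is such a correspondence. So `Z` can be any closed subset of `Sym^r X`, or any
projective variety with a finite morphism to `Sym^r X`, as the finite covers of `X ^ r`, their
quotients by the symmetric group, and all closed subsets of these.

The closed subvarieties of `Z` are given by their function fields `E` and their generic points `z`
(`coords K z = ⊤`: the ratios of the coordinates generate `E`): `AllGeneral Φ` says that all
subvarieties of positive dimension are of general type (`Pool/Agent/N95/GH/Top.lean`). A morphism to
`Z` from a smooth projective curve is given by a point `f` of `Z` over the function field `E` of the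
curve, and `pht K f` is its degree. An extension of fields `E / B` is a covering of the curve with
function field `B`, and `canDeg K B = 2 g - 2`, where `g` is the genus of this curve
(`AllCoverBound`, in `Pool/Agent/N95/GH/Noe.lean`).

`DimLE K Φ D` says that the dimension of `Z` is at most `D`: all its points over extensions of `K`
generate fields of transcendence degree at most `D`.

The proof: let `x_1, …, x_s`, `s ≤ r`, be the points in `Γ_z`, for the generic point `z` of a closed
subvariety of `Z` of dimension `w`. At most `w` of them are such that the others are algebraic over
them. For these, a canonical form on the variety with function field `K (x_1, …)` is obtained as a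
minor of the matrix of the derivatives of the coordinates of all the points, under the derivations
over `K` and under the derivations dual to the coefficients of the equations, combined to deformations
of the equations which fix all the points (given by the products of linear forms which vanish at the
points), and to deformations which fix the points `x_l`, `l > i`, for each `i`. The product of this
form and of `2 r - 1` coordinates of each point is regular, without any assumption on the relations
between the points. The traces of these products are regular forms on the subvariety, and by an
argument with Hankel matrices, for one point at a time, all functions are algebraic over their ratios.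
-/

set_option autoImplicit false
set_option linter.overlappingInstances false

namespace Pool.Agent.Results.MP_c6ff8d_ag.SymmetricPowers

open Pool.Agent.N111.GI (GenericCI)
open Pool.Agent.N95.GH (AllCoverBound AllGeneral)
open Pool.Agent.TH145.MG (DimLE)
open Pool.Agent.N95.RF (SymCor)

/-- Let `Z = {Φ = 0}`, of dimension at most `D`, have a closed correspondence as above to a generic
complete intersection `X`, for instance a finite morphism to `Sym^r X`, let `ρ` be the smaller of the
numbers `r` and `D`, and suppose that `d a ≥ ρ` for all `a`, and that `S ≥ (ρ + 1) m + 2 r - ρ`. Then

(1) all closed subvarieties of positive dimension of `Z` are of general type;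

(2) if `S ≥ 2 m + max (q r, 2)`, for some `q ≥ 1`, then there is a constant `A` such that, for all
smooth projective curves `C` and all coverings `C' → C` of degree at most `q` by smooth projective
curves `C'`, all morphisms from `C'` to `Z` have degree at most `A max (2 g (C) - 2, 0)`; in particular
(`q = 1`), `Z` is algebraically hyperbolic. -/
theorem result {k K : Type} [Field k] [Field K] [IsAlgClosed K] [CharZero K] [Algebra k K]
    {M : ℕ} {Φ : Set (MvPolynomial (Fin (M + 1)) K)} (hΦ : ∀ f ∈ Φ, ∃ e, f.IsHomogeneous e)
    {D : ℕ} (hD : DimLE K Φ D) {X : GenericCI k K} (hm : 1 ≤ X.m) {r : ℕ} (C : SymCor Φ X r)
    (hdeg : ∀ a, min r D ≤ X.d a)
    (hS : (min r D + 1) * X.m + 2 * r ≤ ∑ a, (X.d a + 1) + min r D) :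
    AllGeneral Φ ∧
    ∀ q : ℕ, 1 ≤ q → 2 * X.m + q * r ≤ ∑ a, (X.d a + 1) → 2 * X.m + 2 ≤ ∑ a, (X.d a + 1) →
      AllCoverBound K q Φ :=
  ⟨C.general' hD hm hdeg hS, fun _ _ h h' => C.cover hΦ h h'⟩

end Pool.Agent.Results.MP_c6ff8d_ag.SymmetricPowers
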